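import Pool.Agent.Helper37.CB.Base

/-!
MP_957450_co: labels of segment graphs which are read by comparisons.
-/

set_option autoImplicit false

namespace Pool.Agent.Results.MP_957450_co.ComparisonBound

open Pool.Agent.Helper37.CB

/-- Every vertex has at most `l` tokens (in its role as first and as second vertex of a pair), and
for each token one of `c` colours and `k` elements of linear orders. Distinct `v`, `w` are adjacent
exactly when for some common token a Boolean condition on the two colours and the `k` comparisons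
of the `i`-th element of `v` with the `i`-th element of `w` holds. -/
def Comparisons {V : Type} (G : SimpleGraph V) (k l c : ℕ) : Prop :=
  ∃ (T : Type) (S S' : V → Finset T) (C C' : T → V → Fin c) (Ω : T → Fin k → Type)
    (_ : ∀ τ i, LinearOrder (Ω τ i)) (f g : ∀ τ i, V → Ω τ i)
    (B : T → Fin c → Fin c → (Fin k → Prop) → Prop),
    (∀ v, (S v).card ≤ l) ∧ (∀ v, (S' v).card ≤ l) ∧
    ∀ v w, v ≠ w → (G.Adj v w ↔
      ∃ τ, τ ∈ S v ∧ τ ∈ S' w ∧ B τ (C τ v) (C' τ w) fun i => f τ i v ≤ g τ i w)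

/-- The same, where the condition may depend on the whole order type of the `k + k` elements (of one
linear order) which belong to the token, `k` elements of `v` and `k` elements of `w`. -/
def OrderTypes {V : Type} (G : SimpleGraph V) (k l c : ℕ) : Prop :=
  ∃ (T : Type) (S S' : V → Finset T) (C C' : T → V → Fin c) (Ω : T → Type)
    (_ : ∀ τ, LinearOrder (Ω τ)) (X Y : ∀ τ, V → Fin k → Ω τ)
    (B : T → Fin c → Fin c → (Fin k ⊕ Fin k → Fin k ⊕ Fin k → Prop) → Prop),
    (∀ v, (S v).card ≤ l) ∧ (∀ v, (S' v).card ≤ l) ∧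
    ∀ v w, v ≠ w → (G.Adj v w ↔ ∃ τ, τ ∈ S v ∧ τ ∈ S' w ∧
      B τ (C τ v) (C' τ w) fun a b =>
        Sum.elim (X τ v) (Y τ w) a ≤ Sum.elim (X τ v) (Y τ w) b)

theorem result (n : ℕ) (hn : 1 ≤ n) :
    ∃ (G : SimpleGraph (Fin n)) (p q : Fin n → ℝ × ℝ), (∀ v, p v ≠ q v) ∧
      (∀ v w : Fin n, v ≠ w →
        (G.Adj v w ↔ (segment ℝ (p v) (q v) ∩ segment ℝ (p w) (q w)).Nonempty)) ∧
      ∀ k l c : ℕ, 1 ≤ l → 1 ≤ c →
        (Comparisons G k l c →
          n ≤ (18 * (c * l) * 2 ^ k * (Nat.log 2 n + 1 + k).choose k) ^ 3 ∧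
          Real.log n ≤ 16 * (k + 1) + 5 * Real.log (c * l)) ∧
        (OrderTypes G k l c →
          n ≤ (18 * (c * l) * (4 * k) ^ (2 * k) * (Nat.log 2 n + 1 + 2 * k).choose (2 * k)) ^ 3 ∧
          Real.log n ≤ 16 * (2 * k + 1) + 10 * k * Real.log (2 * k) + 5 * Real.log (c * l)) := by
  obtain ⟨G, p, q, h1, h2, h3⟩ := base n hn
  refine ⟨G, p, q, h1, h2, fun k l c hl hc => ⟨?_, ?_⟩⟩
  · rintro ⟨T, S, S', C, C', Ω, hΩ, f, g, B, hS, hS', hB⟩
    have h4 := plain_of_colours G k l c T S S' C C' Ω hΩ f g B hS hS' hB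
    obtain ⟨h5, h6⟩ := h3 k (c * l) (Nat.mul_pos hc hl) h4
    constructor
    · refine h5.trans (le_of_eq ?_)
      ring
    · push_cast at h6
      exact h6
  · rintro ⟨T, S, S', C, C', Ω, hΩ, X, Y, B, hS, hS', hB⟩
    have h4 := plain_of_orders G k l c T S S' C C' Ω hΩ X Y B hS hS' hB
    have hkk : 1 ≤ (k + k) ^ (k + k) := by
      rcases Nat.eq_zero_or_pos k with rfl | hk
      · simp
      · exact Nat.one_le_pow _ _ (by omega)
    obtain ⟨h5, h6⟩ := h3 (k + k) (c * (l * (k + k) ^ (k + k)))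
      (Nat.mul_pos hc (Nat.mul_pos hl hkk)) h4
    constructor
    · refine h5.trans (le_of_eq ?_)
      have e1 : (4 * k) ^ (2 * k) = 2 ^ (k + k) * (k + k) ^ (k + k) := by
        rw [← mul_pow]
        congr 1 <;> ring
      rw [e1, show 2 * k = k + k by ring]
      ring
    · have hl' : (0 : ℝ) < l := by exact_mod_cast hl
      have hc' : (0 : ℝ) < c := by exact_mod_cast hc
      have hk' : (0 : ℝ) < ((k : ℝ) + k) ^ (k + k) := by exact_mod_cast hkk
      push_cast at h6
      rw [← mul_assoc, Real.log_mul (by positivity) hk'.ne', Real.log_pow] at h6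
      push_cast at h6
      rw [show (2 : ℝ) * k = k + k by ring]
      linarith

end Pool.Agent.Results.MP_957450_co.ComparisonBound
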