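import Pool.Agent.Helper58.LC.All

/-!
# MP_957450_co: adjacency labels of O(n^(1/3) log^2 n) bits for segment graphs

Every segment graph on `n` vertices has labels below `2 ^ (C n^(1/3) (log n)^2)` from which the
adjacency of two vertices is decided by a fixed rule; the same for all classes of graphs which are
defined by a Boolean combination of the signs of `m` scalar products of vectors of `ℝ^3`.
-/

set_option autoImplicit false

namespace Pool.Agent.Results.MP_957450_co.CubeRootLabels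

/-- The graphs of the class (given by its members on the vertex sets `Fin n`) have labels below
`b n` from which the adjacency of distinct vertices is decided by a fixed rule. -/
def HasLabels (b : ℕ → ℝ) (C : ∀ n : ℕ, SimpleGraph (Fin n) → Prop) : Prop :=
  ∃ f : ℕ → ℕ → Prop, ∀ n : ℕ, ∀ G : SimpleGraph (Fin n), C n G →
    ∃ l : Fin n → ℕ, (∀ v, (l v : ℝ) < b n) ∧ ∀ v w : Fin n, v ≠ w → (G.Adj v w ↔ f (l v) (l w))

/-- Segment graphs. -/
def Seg (n : ℕ) (G : SimpleGraph (Fin n)) : Prop :=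
  ∃ p q : Fin n → ℝ × ℝ, ∀ v w : Fin n, v ≠ w →
    (G.Adj v w ↔ (segment ℝ (p v) (q v) ∩ segment ℝ (p w) (q w)).Nonempty)

/-- The scalar product of `ℝ^3`. -/
def dot3 (u w : ℝ × ℝ × ℝ) : ℝ := u.1 * w.1 + u.2.1 * w.2.1 + u.2.2 * w.2.2

/-- Graphs whose adjacency is the Boolean combination `F` of the signs of `m` scalar products. -/
def BoolSign (m : ℕ) (F : (Fin m → Prop) → Prop) (n : ℕ) (G : SimpleGraph (Fin n)) : Prop :=
  ∃ u w : Fin m → Fin n → ℝ × ℝ × ℝ, ∀ a b : Fin n, a ≠ b →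
    (G.Adj a b ↔ F (fun i => 0 ≤ dot3 (u i a) (w i b)))

theorem result :
    (∃ C : ℝ, HasLabels (fun n => 2 ^ (C * (n : ℝ) ^ (1 / 3 : ℝ) * Real.log n ^ 2)) Seg) ∧
      ∀ (m : ℕ) (F : (Fin m → Prop) → Prop), ∃ C : ℝ,
        HasLabels (fun n => 2 ^ (C * (n : ℝ) ^ (1 / 3 : ℝ) * Real.log n ^ 2)) (BoolSign m F) := by
  refine ⟨?_, fun m F => ?_⟩
  · obtain ⟨C, f, -, h⟩ := Pool.Agent.Helper58.LC.allSeg
    exact ⟨C, f, h⟩
  · rcases Nat.eq_zero_or_pos m with rfl | hm
    · obtain ⟨C, f, -, h⟩ := Pool.Agent.Helper58.LC.allBool 1 le_rfl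
        (fun _ => F (fun i => i.elim0))
      refine ⟨C, f, fun n G hG => h n G ?_⟩
      obtain ⟨u, w, huw⟩ := hG
      refine ⟨fun _ _ => 0, fun _ _ => 0, fun a b hab => ?_⟩
      rw [huw a b hab]
      have e : (fun i : Fin 0 => 0 ≤ dot3 (u i a) (w i b)) = fun i => i.elim0 :=
        funext fun i => i.elim0
      rw [e]
    · obtain ⟨C, f, -, h⟩ := Pool.Agent.Helper58.LC.allBool m hm F
      exact ⟨C, f, h⟩

end Pool.Agent.Results.MP_957450_co.CubeRootLabels
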