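import Pool.Agent.Helper58.SG.Unit
import Pool.Agent.Helper58.SG.Ground
import Pool.Agent.Helper58.SG.Ext
import Pool.Agent.Helper58.SG.Disk

/-!
# MP_957450_co: classes which are as hard as the segment graphs

All segment graphs have an efficient local representation if and only if one of the following
classes has one: the unit segment graphs which are a union of two cliques, the grounded segment
graphs which are a union of two cliques, the bipartite graphs of points and lines (adjacent if the point is on or above the line),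
the bipartite graphs of sign rank at most three, the dot product graphs of the plane; if and only
if all classes of graphs defined by a Boolean combination of `m` signs of products of vectors of
`ℝ^3` have one. If the unit disk graphs which are a union of two cliques have an efficient local
representation, so have all segment graphs.
-/

set_option autoImplicit false

namespace Pool.Agent.Results.MP_957450_co.HardSubclasses

/-- A class of graphs, given by its members on the vertex sets `Fin n`, has an efficient local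
representation. -/
def HasELR (C : ∀ n : ℕ, SimpleGraph (Fin n) → Prop) : Prop :=
  ∃ k : ℕ, ∃ f : ℕ → ℕ → Prop, ∀ n : ℕ, ∀ G : SimpleGraph (Fin n), C n G →
    ∃ l : Fin n → ℕ, (∀ v, l v < n ^ k) ∧ ∀ v w : Fin n, v ≠ w → (G.Adj v w ↔ f (l v) (l w))

/-- The segments with the end points `p v`, `q v` represent the graph. -/
def Rep {n : ℕ} (G : SimpleGraph (Fin n)) (p q : Fin n → ℝ × ℝ) : Prop :=
  ∀ v w : Fin n, v ≠ w →
    (G.Adj v w ↔ (segment ℝ (p v) (q v) ∩ segment ℝ (p w) (q w)).Nonempty)

/-- The vertices are covered by two cliques. -/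
def TwoCliques {n : ℕ} (G : SimpleGraph (Fin n)) : Prop :=
  ∃ c : Fin n → Bool, ∀ v w : Fin n, v ≠ w → c v = c w → G.Adj v w

/-- All segment graphs. -/
def Seg (n : ℕ) (G : SimpleGraph (Fin n)) : Prop := ∃ p q, Rep G p q

/-- Unions of two cliques which are represented by segments of length 1. -/
def UnitTwo (n : ℕ) (G : SimpleGraph (Fin n)) : Prop :=
  TwoCliques G ∧ ∃ p q, Rep G p q ∧ ∀ v, ((q v).1 - (p v).1) ^ 2 + ((q v).2 - (p v).2) ^ 2 = 1

/-- Unions of two cliques which are represented by segments with one end point on the first axis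
and the other one above it. -/
def GroundedTwo (n : ℕ) (G : SimpleGraph (Fin n)) : Prop :=
  TwoCliques G ∧ ∃ p q, Rep G p q ∧ ∀ v, (p v).2 = 0 ∧ 0 < (q v).2

/-- Bipartite graphs of points `(x v, y v)` (`c v = false`) and lines `Y = x w * X + y w`
(`c w = true`): a point is adjacent to a line if it is on or above the line. -/
def PointLine (n : ℕ) (G : SimpleGraph (Fin n)) : Prop :=
  ∃ (c : Fin n → Bool) (x y : Fin n → ℝ), ∀ v w : Fin n, G.Adj v w ↔
    (c v = false ∧ c w = true ∧ x w * x v + y w ≤ y v) ∨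
    (c w = false ∧ c v = true ∧ x v * x w + y v ≤ y w)

/-- The scalar product of `ℝ^3`. -/
def dot3 (u w : ℝ × ℝ × ℝ) : ℝ := u.1 * w.1 + u.2.1 * w.2.1 + u.2.2 * w.2.2

/-- Bipartite graphs of sign rank at most three: vertices of different colours are adjacent if
the scalar product of their vectors is not negative. -/
def SignRank (n : ℕ) (G : SimpleGraph (Fin n)) : Prop :=
  ∃ (c : Fin n → Bool) (u : Fin n → ℝ × ℝ × ℝ), ∀ v w : Fin n,
    G.Adj v w ↔ c v ≠ c w ∧ 0 ≤ dot3 (u v) (u w)

/-- The dot product graphs of the plane: two vertices are adjacent if the scalar product of their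
vectors `(x v, y v)` is at least one. -/
def DotProduct (n : ℕ) (G : SimpleGraph (Fin n)) : Prop :=
  ∃ x y : Fin n → ℝ, ∀ v w : Fin n, v ≠ w → (G.Adj v w ↔ 1 ≤ x v * x w + y v * y w)

/-- Graphs whose adjacency is the Boolean combination `F` of the signs of `m` scalar products. -/
def BoolSign (m : ℕ) (F : (Fin m → Prop) → Prop) (n : ℕ) (G : SimpleGraph (Fin n)) : Prop :=
  ∃ u w : Fin m → Fin n → ℝ × ℝ × ℝ, ∀ a b : Fin n, a ≠ b →
    (G.Adj a b ↔ F (fun i => 0 ≤ dot3 (u i a) (w i b)))

/-- Each vertex is assigned a union of `m` segments. -/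
def Pieces (m n : ℕ) (G : SimpleGraph (Fin n)) : Prop :=
  ∃ p q : Fin n → Fin m → ℝ × ℝ, ∀ v w : Fin n, v ≠ w →
    (G.Adj v w ↔ ∃ i j, (segment ℝ (p v i) (q v i) ∩ segment ℝ (p w j) (q w j)).Nonempty)

/-- Unit disk graphs (the disks of diameter 1 with the centres `p v`) which are a union of two
cliques. -/
def DiskTwo (n : ℕ) (G : SimpleGraph (Fin n)) : Prop :=
  TwoCliques G ∧ ∃ p : Fin n → ℝ × ℝ, ∀ v w : Fin n, v ≠ w →
    (G.Adj v w ↔ ((p v).1 - (p w).1) ^ 2 + ((p v).2 - (p w).2) ^ 2 ≤ 1)

theorem result :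
    (HasELR Seg ↔ HasELR UnitTwo) ∧ (HasELR Seg ↔ HasELR GroundedTwo) ∧
      (HasELR Seg ↔ HasELR PointLine) ∧ (HasELR Seg ↔ HasELR SignRank) ∧
      (HasELR Seg ↔ HasELR DotProduct) ∧ (HasELR Seg ↔ ∀ m F, HasELR (BoolSign m F)) ∧
      (HasELR Seg ↔ ∀ m, HasELR (Pieces m)) ∧ (HasELR DiskTwo → HasELR Seg) := by
  have h1 : HasELR Seg → HasELR UnitTwo :=
    Pool.Agent.Helper58.SG.HasELR.mono (fun _ _ ⟨_, p, q, h, _⟩ => ⟨p, q, h⟩)
  have h2 : HasELR Seg → HasELR GroundedTwo :=
    Pool.Agent.Helper58.SG.HasELR.mono (fun _ _ ⟨_, p, q, h, _⟩ => ⟨p, q, h⟩)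
  have h3 : HasELR UnitTwo → HasELR PointLine := Pool.Agent.Helper58.SG.pl_of_unit
  have h4 : HasELR GroundedTwo → HasELR PointLine := Pool.Agent.Helper58.SG.pl_of_grounded
  have h5 : HasELR PointLine → HasELR Seg := Pool.Agent.Helper58.SG.seg_of_pointLine
  have h6 : HasELR PointLine → Pool.Agent.Helper58.SG.HasELR Pool.Agent.Helper58.SG.Bil3 :=
    Pool.Agent.Helper58.SG.bil_of_pointLine
  have h7 : HasELR PointLine → HasELR DotProduct := fun h =>
    Pool.Agent.Helper58.SG.dot2_of_bil (h6 h)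
  have h8 : HasELR DotProduct → HasELR PointLine := Pool.Agent.Helper58.SG.pl_of_dot2
  have h9 : HasELR PointLine → HasELR SignRank := fun h =>
    Pool.Agent.Helper58.SG.sign_of_bil (h6 h)
  have h10 : HasELR SignRank → HasELR PointLine := Pool.Agent.Helper58.SG.pl_of_sign
  have h11 : HasELR SignRank → ∀ m F, HasELR (BoolSign m F) :=
    Pool.Agent.Helper58.SG.bool_of_sign
  have h12 : (∀ m F, HasELR (BoolSign m F)) → HasELR PointLine := fun h =>
    h10 (Pool.Agent.Helper58.SG.sign_of_bil (Pool.Agent.Helper58.SG.bil_of_bool h))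
  have h13 : HasELR Seg → ∀ m, HasELR (Pieces m) := Pool.Agent.Helper58.SG.pieces_of_seg
  have h14 : (∀ m, HasELR (Pieces m)) → HasELR Seg := Pool.Agent.Helper58.SG.seg_of_pieces
  have h15 : HasELR DiskTwo → HasELR PointLine := Pool.Agent.Helper58.SG.pl_of_disk
  have h16 : HasELR Seg → HasELR PointLine := fun h => h3 (h1 h)
  exact ⟨⟨h1, fun h => h5 (h3 h)⟩, ⟨h2, fun h => h5 (h4 h)⟩, ⟨h16, h5⟩,
    ⟨fun h => h9 (h16 h), fun h => h5 (h10 h)⟩, ⟨fun h => h7 (h16 h), fun h => h5 (h8 h)⟩,
    ⟨fun h => h11 (h9 (h16 h)), fun h => h5 (h12 h)⟩, ⟨h13, h14⟩, fun h => h5 (h15 h)⟩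

end Pool.Agent.Results.MP_957450_co.HardSubclasses
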