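import Mathlib

set_option autoImplicit false

namespace Pool.Agent.Results.MP_957450_co.NoncrossingPieces

open Set

/-- height at abscissa `t` of the line through `l` and `r` -/
noncomputable def hgt (l r : ℝ × ℝ) (t : ℝ) : ℝ :=
  l.2 + (t - l.1) * ((r.2 - l.2) / (r.1 - l.1))

theorem hgt_left (l r : ℝ × ℝ) : hgt l r l.1 = l.2 := by simp [hgt]

theorem hgt_right {l r : ℝ × ℝ} (hg : l.1 = r.1 → l = r) : hgt l r r.1 = r.2 := by
  by_cases h : l.1 = r.1
  · have := hg h
    subst this
    simp [hgt]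
  · have : r.1 - l.1 ≠ 0 := sub_ne_zero.2 (Ne.symm h)
    unfold hgt
    field_simp
    ring

theorem mem_seg {l r : ℝ × ℝ} (h : l.1 ≤ r.1) (hg : l.1 = r.1 → l = r) (x : ℝ × ℝ) :
    x ∈ segment ℝ l r ↔ l.1 ≤ x.1 ∧ x.1 ≤ r.1 ∧ x.2 = hgt l r x.1 := by
  constructor
  · rintro ⟨a, b, ha, hb, hab, rfl⟩
    have ha' : a = 1 - b := by linarith
    subst ha'
    have e1 : ((1 - b) • l + b • r).1 = l.1 + b * (r.1 - l.1) := by
      simp; ring
    have e2 : ((1 - b) • l + b • r).2 = l.2 + b * (r.2 - l.2) := by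
      simp; ring
    rw [e1, e2]
    refine ⟨?_, ?_, ?_⟩
    · nlinarith
    · nlinarith
    · unfold hgt
      by_cases h' : l.1 = r.1
      · have := hg h'
        subst this
        simp
      · have : r.1 - l.1 ≠ 0 := sub_ne_zero.2 (Ne.symm h')
        field_simp
        ring
  · rintro ⟨h1, h2, h3⟩
    by_cases h' : l.1 = r.1
    · have := hg h'
      subst this
      have hx : x = l := by
        apply Prod.ext
        · linarith
        · rw [h3]
          simp [hgt]
      rw [hx]
      exact left_mem_segment ℝ l l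
    · have hlt : 0 < r.1 - l.1 := by
        rcases lt_or_eq_of_le h with h4 | h4
        · linarith
        · exact absurd h4 h'
      refine ⟨1 - (x.1 - l.1) / (r.1 - l.1), (x.1 - l.1) / (r.1 - l.1), ?_, ?_, by ring, ?_⟩
      · rw [sub_nonneg, div_le_one hlt]
        linarith
      · apply div_nonneg
        · linarith
        · exact hlt.le
      · apply Prod.ext
        · simp
          field_simp
          ring
        · rw [h3]
          simp [hgt]
          field_simp
          ring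

theorem mem_oseg {l r : ℝ × ℝ} {x : ℝ × ℝ} (h1 : l.1 < x.1) (h2 : x.1 < r.1)
    (h3 : x.2 = hgt l r x.1) : x ∈ openSegment ℝ l r := by
  have hlt : 0 < r.1 - l.1 := by linarith
  refine ⟨1 - (x.1 - l.1) / (r.1 - l.1), (x.1 - l.1) / (r.1 - l.1), ?_, ?_, by ring, ?_⟩
  · rw [sub_pos, div_lt_one hlt]
    linarith
  · apply div_pos
    · linarith
    · exact hlt
  · apply Prod.ext
    · simp
      field_simp
      ring
    · rw [h3]
      simp [hgt]
      field_simp
      ring

/-- an affine function has a zero in `[s, e]` iff it does not have the same strict sign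
at both ends -/
theorem affine_zero {A B s e : ℝ} (hse : s ≤ e) :
    (∃ t, s ≤ t ∧ t ≤ e ∧ A + B * t = 0) ↔
      ¬ (0 < A + B * s ∧ 0 < A + B * e) ∧ ¬ (A + B * s < 0 ∧ A + B * e < 0) := by
  constructor
  · rintro ⟨t, h1, h2, h3⟩
    constructor
    · rintro ⟨h4, h5⟩
      rcases le_total 0 B with hB | hB
      · nlinarith
      · nlinarith
    · rintro ⟨h4, h5⟩
      rcases le_total 0 B with hB | hB
      · nlinarith
      · nlinarith
  · rintro ⟨h1, h2⟩
    have hc : ContinuousOn (fun t => A + B * t) (Icc s e) := by fun_prop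
    rcases le_total (A + B * s) 0 with h3 | h3
    · rcases le_total 0 (A + B * e) with h4 | h4
      · obtain ⟨t, ht, ht'⟩ := intermediate_value_Icc hse hc (show (0 : ℝ) ∈ Icc _ _ from ⟨h3, h4⟩)
        exact ⟨t, ht.1, ht.2, ht'⟩
      · by_cases h5 : A + B * s = 0
        · exact ⟨s, le_refl _, hse, h5⟩
        · by_cases h6 : A + B * e = 0
          · exact ⟨e, hse, le_refl _, h6⟩
          · exact absurd ⟨lt_of_le_of_ne h3 h5, lt_of_le_of_ne h4 h6⟩ h2
    · rcases le_total 0 (A + B * e) with h4 | h4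
      · by_cases h5 : A + B * s = 0
        · exact ⟨s, le_refl _, hse, h5⟩
        · by_cases h6 : A + B * e = 0
          · exact ⟨e, hse, le_refl _, h6⟩
          · exact absurd ⟨lt_of_le_of_ne h3 (Ne.symm h5), lt_of_le_of_ne h4 (Ne.symm h6)⟩ h1
      · obtain ⟨t, ht, ht'⟩ := intermediate_value_Icc' hse hc
          (show (0 : ℝ) ∈ Icc _ _ from ⟨h4, h3⟩)
        exact ⟨t, ht.1, ht.2, ht'⟩

theorem hgt_affine (l r : ℝ × ℝ) : ∃ A B : ℝ, ∀ t, hgt l r t = A + B * t :=
  ⟨l.2 - l.1 * ((r.2 - l.2) / (r.1 - l.1)), (r.2 - l.2) / (r.1 - l.1), fun t => by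
    unfold hgt; ring⟩

/-- two pieces meet iff the abscissa ranges overlap and the difference of the heights does not
have the same strict sign at both ends of the overlap -/
theorem meet_iff {l r l' r' : ℝ × ℝ} (h : l.1 ≤ r.1) (hg : l.1 = r.1 → l = r)
    (h' : l'.1 ≤ r'.1) (hg' : l'.1 = r'.1 → l' = r') :
    (segment ℝ l r ∩ segment ℝ l' r').Nonempty ↔
      (l.1 ≤ r'.1 ∧ l'.1 ≤ r.1) ∧
      ¬ (hgt l' r' (max l.1 l'.1) < hgt l r (max l.1 l'.1) ∧
          hgt l' r' (min r.1 r'.1) < hgt l r (min r.1 r'.1)) ∧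
      ¬ (hgt l r (max l.1 l'.1) < hgt l' r' (max l.1 l'.1) ∧
          hgt l r (min r.1 r'.1) < hgt l' r' (min r.1 r'.1)) := by
  obtain ⟨A, B, hAB⟩ := hgt_affine l r
  obtain ⟨A', B', hAB'⟩ := hgt_affine l' r'
  have key : (segment ℝ l r ∩ segment ℝ l' r').Nonempty ↔
      ∃ t, max l.1 l'.1 ≤ t ∧ t ≤ min r.1 r'.1 ∧ (A - A') + (B - B') * t = 0 := by
    constructor
    · rintro ⟨x, hx, hx'⟩
      rw [mem_seg h hg] at hx
      rw [mem_seg h' hg'] at hx'
      refine ⟨x.1, max_le hx.1 hx'.1, le_min hx.2.1 hx'.2.1, ?_⟩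
      have h1 := hx.2.2
      have h2 := hx'.2.2
      rw [hAB] at h1
      rw [hAB'] at h2
      linarith
    · rintro ⟨t, h1, h2, h3⟩
      refine ⟨(t, hgt l r t), ?_, ?_⟩
      · rw [mem_seg h hg]
        exact ⟨(max_le_iff.1 h1).1, (le_min_iff.1 h2).1, rfl⟩
      · rw [mem_seg h' hg']
        refine ⟨(max_le_iff.1 h1).2, (le_min_iff.1 h2).2, ?_⟩
        simp only
        rw [hAB, hAB']
        linarith
  rw [key]
  constructor
  · rintro ⟨t, h1, h2, h3⟩
    have h12 : max l.1 l'.1 ≤ min r.1 r'.1 := h1.trans h2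
    have h4 := (affine_zero (A := A - A') (B := B - B') h12).1 ⟨t, h1, h2, h3⟩
    refine ⟨⟨?_, ?_⟩, ?_, ?_⟩
    · exact (le_max_left _ _).trans (h12.trans (min_le_right _ _))
    · exact (le_max_right _ _).trans (h12.trans (min_le_left _ _))
    · rintro ⟨h5, h6⟩
      apply h4.1
      rw [hAB, hAB'] at h5 h6
      constructor <;> linarith
    · rintro ⟨h5, h6⟩
      apply h4.2
      rw [hAB, hAB'] at h5 h6
      constructor <;> linarith
  · rintro ⟨⟨h1, h2⟩, h3, h4⟩
    have h12 : max l.1 l'.1 ≤ min r.1 r'.1 :=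
      max_le (le_min h h1) (le_min h2 h')
    apply (affine_zero (A := A - A') (B := B - B') h12).2
    constructor
    · rintro ⟨h5, h6⟩
      apply h3
      rw [hAB, hAB', hAB, hAB']
      constructor <;> linarith
    · rintro ⟨h5, h6⟩
      apply h4
      rw [hAB, hAB', hAB, hAB']
      constructor <;> linarith

/-! ### a linear order on the pieces of one colour -/

section order

variable {ι κ : Type}

/-- `x` passes below `y` at some common abscissa and both have the same colour -/
def Below (l r : ι → ℝ × ℝ) (c : ι → κ) (x y : ι) : Prop :=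
  c x = c y ∧ ∃ t, ((l x).1 ≤ t ∧ t ≤ (r x).1) ∧ ((l y).1 ≤ t ∧ t ≤ (r y).1) ∧
    hgt (l x) (r x) t < hgt (l y) (r y) t

/-- pieces of the same colour do not change their vertical order -/
def NC (l r : ι → ℝ × ℝ) (c : ι → κ) : Prop :=
  ∀ x y, c x = c y → ∀ t t', ((l x).1 ≤ t ∧ t ≤ (r x).1) → ((l y).1 ≤ t ∧ t ≤ (r y).1) →
    ((l x).1 ≤ t' ∧ t' ≤ (r x).1) → ((l y).1 ≤ t' ∧ t' ≤ (r y).1) →
    hgt (l x) (r x) t < hgt (l y) (r y) t → hgt (l x) (r x) t' ≤ hgt (l y) (r y) t'

theorem below_trans {l r : ι → ℝ × ℝ} {c : ι → κ} (hnc : NC l r c) {b a d : ι}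
    (h1 : Below l r c b a) (h2 : Below l r c a d) (hb : (r a).1 ≤ (r b).1)
    (hd : (r a).1 ≤ (r d).1) : Below l r c b d := by
  obtain ⟨hc1, t1, ⟨h11, h12⟩, ⟨h13, h14⟩, h15⟩ := h1
  obtain ⟨hc2, t2, ⟨h21, h22⟩, ⟨h23, h24⟩, h25⟩ := h2
  refine ⟨hc1.trans hc2, ?_⟩
  rcases le_total t1 t2 with h | h
  · refine ⟨t2, ⟨by linarith, by linarith⟩, ⟨by linarith, by linarith⟩, ?_⟩
    have := hnc b a hc1 t1 t2 ⟨h11, h12⟩ ⟨h13, h14⟩ ⟨by linarith, by linarith⟩
      ⟨by linarith, by linarith⟩ h15
    linarith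
  · refine ⟨t1, ⟨by linarith, by linarith⟩, ⟨by linarith, by linarith⟩, ?_⟩
    have := hnc a d hc2 t2 t1 ⟨h21, h22⟩ ⟨h23, h24⟩ ⟨by linarith, by linarith⟩
      ⟨by linarith, by linarith⟩ h25
    linarith

theorem exists_order [Fintype ι] {l r : ι → ℝ × ℝ} {c : ι → κ} (hnc : NC l r c) :
    ∃ ρ : ι → ℝ, ∀ x y, Below l r c x y → ρ x < ρ y := by
  classical
  suffices H : ∀ S : Finset ι, ∃ ρ : ι → ℝ, ∀ x ∈ S, ∀ y ∈ S, Below l r c x y → ρ x < ρ y by
    obtain ⟨ρ, hρ⟩ := H Finset.univ
    exact ⟨ρ, fun x y h => hρ x (Finset.mem_univ _) y (Finset.mem_univ _) h⟩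
  intro S
  induction S using Finset.induction_on_min_value (fun x => (r x).1) with
  | empty => exact ⟨fun _ => 0, by simp⟩
  | insert a S haS hmin ih =>
    obtain ⟨ρ, hρ⟩ := ih
    obtain ⟨θ, hθ1, hθ2⟩ := Order.exists_between_finsets
      ((S.filter (fun b => Below l r c b a)).image ρ)
      ((S.filter (fun d => Below l r c a d)).image ρ)
      (by
        intro x hx y hy
        simp only [Finset.mem_image, Finset.mem_filter] at hx hy
        obtain ⟨b, ⟨hb, hba⟩, rfl⟩ := hx
        obtain ⟨d, ⟨hd, had⟩, rfl⟩ := hy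
        exact hρ b hb d hd (below_trans hnc hba had (hmin b hb) (hmin d hd)))
    refine ⟨Function.update ρ a θ, ?_⟩
    intro x hx y hy hxy
    have hirr : ∀ z, ¬ Below l r c z z := by
      rintro z ⟨_, t, _, _, h⟩
      exact lt_irrefl _ h
    rcases Finset.mem_insert.1 hx with rfl | hx'
    · rcases Finset.mem_insert.1 hy with rfl | hy'
      · exact absurd hxy (hirr _)
      · have hne : y ≠ x := fun h => haS (h ▸ hy')
        rw [Function.update_self, Function.update_of_ne hne]
        exact hθ2 _ (Finset.mem_image.2 ⟨y, Finset.mem_filter.2 ⟨hy', hxy⟩, rfl⟩)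
    · have hne : x ≠ a := fun h => haS (h ▸ hx')
      rcases Finset.mem_insert.1 hy with rfl | hy'
      · rw [Function.update_self, Function.update_of_ne hne]
        exact hθ1 _ (Finset.mem_image.2 ⟨x, Finset.mem_filter.2 ⟨hx', hxy⟩, rfl⟩)
      · have hne' : y ≠ a := fun h => haS (h ▸ hy')
        rw [Function.update_of_ne hne, Function.update_of_ne hne']
        exact hρ x hx' y hy' hxy

/-- rank of an element in a real valued order -/
noncomputable def rk [Fintype ι] (ρ : ι → ℝ) (x : ι) : ℕ := (Finset.univ.filter (fun z => ρ z < ρ x)).card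

theorem rk_lt [Fintype ι] (ρ : ι → ℝ) (x : ι) : rk ρ x < Fintype.card ι := by
  classical
  unfold rk
  apply Finset.card_lt_univ_of_notMem (x := x)
  simp

theorem rk_le_iff [Fintype ι] (ρ : ι → ℝ) (x y : ι) : rk ρ x ≤ rk ρ y ↔ ρ x ≤ ρ y := by
  classical
  constructor
  · intro h
    by_contra hlt
    push Not at hlt
    have : rk ρ y < rk ρ x := by
      unfold rk
      apply Finset.card_lt_card
      rw [Finset.ssubset_iff_of_subset]
      · exact ⟨y, by simpa using hlt, by simp⟩
      · intro z hz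
        simp only [Finset.mem_filter, Finset.mem_univ, true_and] at hz ⊢
        linarith
    omega
  · intro h
    unfold rk
    apply Finset.card_le_card
    intro z hz
    simp only [Finset.mem_filter, Finset.mem_univ, true_and] at hz ⊢
    linarith

theorem exists_cut [Fintype ι] (ρ : ι → ℝ) (P Q : ι → Prop) (h : ∀ y z, P y → Q z → ρ y < ρ z) :
    ∃ T : ℕ, T ≤ Fintype.card ι ∧ (∀ y, P y → rk ρ y < T) ∧ ∀ z, Q z → T ≤ rk ρ z := by
  classical
  refine ⟨(Finset.univ.filter (fun w => ∃ y, P y ∧ ρ w ≤ ρ y)).card, ?_, ?_, ?_⟩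
  · exact Finset.card_le_univ _
  · intro y hy
    unfold rk
    apply Finset.card_lt_card
    rw [Finset.ssubset_iff_of_subset]
    · exact ⟨y, by simpa using ⟨y, hy, le_refl _⟩, by simp⟩
    · intro z hz
      simp only [Finset.mem_filter, Finset.mem_univ, true_and] at hz ⊢
      exact ⟨y, hy, hz.le⟩
  · intro z hz
    unfold rk
    apply Finset.card_le_card
    intro w hw
    simp only [Finset.mem_filter, Finset.mem_univ, true_and] at hw ⊢
    obtain ⟨y, hy, hwy⟩ := hw
    exact lt_of_le_of_lt hwy (h y z hy hz)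

/-- the thresholds of a point in the class of one colour -/
theorem exists_thresholds [Fintype ι] {l r : ι → ℝ × ℝ} {c : ι → κ} {ρ : ι → ℝ}
    (hρ : ∀ x y, Below l r c x y → ρ x < ρ y) (a : ℝ × ℝ) (j : κ) :
    ∃ T : Bool → ℕ, (∀ b, T b ≤ Fintype.card ι) ∧
      ∀ y, c y = j → (l y).1 ≤ a.1 → a.1 ≤ (r y).1 →
        ((hgt (l y) (r y) a.1 < a.2 ↔ rk ρ y < T false) ∧
         (a.2 < hgt (l y) (r y) a.1 ↔ T true ≤ rk ρ y)) := by
  classical
  obtain ⟨T1, h11, h12, h13⟩ := exists_cut ρ
    (fun y => c y = j ∧ (l y).1 ≤ a.1 ∧ a.1 ≤ (r y).1 ∧ hgt (l y) (r y) a.1 < a.2)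
    (fun y => c y = j ∧ (l y).1 ≤ a.1 ∧ a.1 ≤ (r y).1 ∧ a.2 ≤ hgt (l y) (r y) a.1)
    (by
      rintro y z ⟨h1, h2, h3, h4⟩ ⟨h5, h6, h7, h8⟩
      exact hρ y z ⟨h1.trans h5.symm, a.1, ⟨h2, h3⟩, ⟨h6, h7⟩, by linarith⟩)
  obtain ⟨T2, h21, h22, h23⟩ := exists_cut ρ
    (fun y => c y = j ∧ (l y).1 ≤ a.1 ∧ a.1 ≤ (r y).1 ∧ hgt (l y) (r y) a.1 ≤ a.2)
    (fun y => c y = j ∧ (l y).1 ≤ a.1 ∧ a.1 ≤ (r y).1 ∧ a.2 < hgt (l y) (r y) a.1)
    (by
      rintro y z ⟨h1, h2, h3, h4⟩ ⟨h5, h6, h7, h8⟩
      exact hρ y z ⟨h1.trans h5.symm, a.1, ⟨h2, h3⟩, ⟨h6, h7⟩, by linarith⟩)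
  refine ⟨fun b => if b then T2 else T1, ?_, ?_⟩
  · intro b
    cases b
    · simpa using h11
    · simpa using h21
  · intro y hy h1 h2
    constructor
    · simp only [Bool.false_eq_true, if_false]
      constructor
      · intro h
        exact h12 y ⟨hy, h1, h2, h⟩
      · intro h
        by_contra hn
        push Not at hn
        have := h13 y ⟨hy, h1, h2, hn⟩
        omega
    · simp only [if_true]
      constructor
      · intro h
        exact h23 y ⟨hy, h1, h2, h⟩
      · intro h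
        by_contra hn
        push Not at hn
        have := h22 y ⟨hy, h1, h2, hn⟩
        omega

end order

/-! ### coding tuples by numbers -/

/-- code of a tuple of natural numbers -/
def code : (M : ℕ) → (Fin M → ℕ) → ℕ
  | 0, _ => 0
  | (M + 1), g => Nat.pair (g 0) (code M (fun i => g i.succ))

theorem code_inj : ∀ (M : ℕ) (g h : Fin M → ℕ), code M g = code M h → g = h
  | 0, g, h, _ => by
    funext i
    exact i.elim0
  | (M + 1), g, h, e => by
    simp only [code] at e
    rw [Nat.pair_eq_pair] at e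
    have := code_inj M _ _ e.2
    funext i
    refine Fin.cases ?_ (fun j => ?_) i
    · exact e.1
    · exact congrFun this j

theorem code_lt : ∀ (M : ℕ) (g : Fin M → ℕ) (B : ℕ), 0 < B → (∀ i, g i < B) →
    code M g < B ^ (2 ^ M)
  | 0, g, B, hB, _ => by simpa [code] using hB
  | (M + 1), g, B, hB, h => by
    have ih := code_lt M (fun i => g i.succ) B hB (fun i => h _)
    have h0 : g 0 < B ^ (2 ^ M) := lt_of_lt_of_le (h 0) (Nat.le_self_pow (by positivity) B)
    simp only [code]
    calc Nat.pair (g 0) (code M (fun i => g i.succ))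
        < (max (g 0) (code M (fun i => g i.succ)) + 1) ^ 2 := Nat.pair_lt_max_add_one_sq _ _
      _ ≤ (B ^ (2 ^ M)) ^ 2 := by
          apply Nat.pow_le_pow_left
          have := max_lt h0 ih
          omega
      _ = B ^ (2 ^ (M + 1)) := by
          rw [← pow_mul, pow_succ]

/-! ### labels -/

/-- index set of the fields of a label -/
abbrev Fld (m k : ℕ) : Type := Fin m × (Fin 4 ⊕ (Bool × Fin k × Bool))

/-- the end `e` of piece `i` of `g` lies strictly above piece `i'` of `h` -/
def Abv {m k : ℕ} (g h : Fld m k → ℕ) (i i' : Fin m) (e : Bool) : Prop :=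
  ∃ j : Fin k, (j : ℕ) = h (i', .inl 2) ∧ h (i', .inl 3) < g (i, .inr (e, j, false))

/-- the end `e` of piece `i` of `g` lies strictly below piece `i'` of `h` -/
def Blw {m k : ℕ} (g h : Fld m k → ℕ) (i i' : Fin m) (e : Bool) : Prop :=
  ∃ j : Fin k, (j : ℕ) = h (i', .inl 2) ∧ g (i, .inr (e, j, true)) ≤ h (i', .inl 3)

open Classical in
/-- the decoder, in terms of fields -/
def Rule {m k : ℕ} (g h : Fld m k → ℕ) : Prop :=
  ∃ i i' : Fin m,
    (g (i, .inl 0) ≤ h (i', .inl 1) ∧ h (i', .inl 0) ≤ g (i, .inl 1)) ∧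
    ¬ ((if h (i', .inl 0) ≤ g (i, .inl 0) then Abv g h i i' false else Blw h g i' i false) ∧
       (if g (i, .inl 1) ≤ h (i', .inl 1) then Abv g h i i' true else Blw h g i' i true)) ∧
    ¬ ((if h (i', .inl 0) ≤ g (i, .inl 0) then Blw g h i i' false else Abv h g i' i false) ∧
       (if g (i, .inl 1) ≤ h (i', .inl 1) then Blw g h i i' true else Abv h g i' i true))

theorem generic_labels (n m k : ℕ) (l r : Fin n × Fin m → ℝ × ℝ) (c : Fin n × Fin m → Fin k)
    (hlr : ∀ x, (l x).1 ≤ (r x).1) (hg : ∀ x, (l x).1 = (r x).1 → l x = r x)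
    (hnc : NC l r c) :
    ∃ g : Fin n → (Fld m k → ℕ), (∀ v t, g v t < 2 * (n * m) + k + 2) ∧
      ∀ v w, Rule (g v) (g w) ↔
        ∃ i i', (segment ℝ (l (v, i)) (r (v, i)) ∩ segment ℝ (l (w, i')) (r (w, i'))).Nonempty := by
  classical
  obtain ⟨ρ, hρ⟩ := exists_order hnc
  have hT : ∀ (a : ℝ × ℝ) (j : Fin k), ∃ T : Bool → ℕ,
      (∀ b, T b ≤ Fintype.card (Fin n × Fin m)) ∧
      ∀ y, c y = j → (l y).1 ≤ a.1 → a.1 ≤ (r y).1 →
        ((hgt (l y) (r y) a.1 < a.2 ↔ rk ρ y < T false) ∧
         (a.2 < hgt (l y) (r y) a.1 ↔ T true ≤ rk ρ y)) :=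
    fun a j => exists_thresholds hρ a j
  choose T hTb hTs using hT
  let pt : (Fin n × Fin m) × Bool → ℝ × ℝ := fun e => if e.2 then r e.1 else l e.1
  let X : (Fin n × Fin m) × Bool → ℝ := fun e => (pt e).1
  let g : Fin n → (Fld m k → ℕ) := fun v t =>
    match t with
    | (i, .inl 0) => rk X ((v, i), false)
    | (i, .inl 1) => rk X ((v, i), true)
    | (i, .inl 2) => (c (v, i) : ℕ)
    | (i, .inl 3) => rk ρ (v, i)
    | (i, .inr (e, j, b)) => T (pt ((v, i), e)) j b
  refine ⟨g, ?_, ?_⟩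
  · have hc1 : Fintype.card (Fin n × Fin m) = n * m := by simp
    have hc2 : Fintype.card ((Fin n × Fin m) × Bool) = n * m * 2 := by simp
    intro v t
    rcases t with ⟨i, t⟩
    rcases t with t | ⟨e, j, b⟩
    · fin_cases t
      · have := rk_lt X ((v, i), false)
        rw [hc2] at this
        show rk X ((v, i), false) < _
        omega
      · have := rk_lt X ((v, i), true)
        rw [hc2] at this
        show rk X ((v, i), true) < _
        omega
      · have := (c (v, i)).2
        show (c (v, i) : ℕ) < _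
        omega
      · have := rk_lt ρ (v, i)
        rw [hc1] at this
        show rk ρ (v, i) < _
        omega
    · have := hTb (pt ((v, i), e)) j b
      rw [hc1] at this
      show T (pt ((v, i), e)) j b < _
      omega
  · intro v w
    have habv : ∀ (v w : Fin n) (i i' : Fin m) (e : Bool),
        (l (w, i')).1 ≤ (pt ((v, i), e)).1 → (pt ((v, i), e)).1 ≤ (r (w, i')).1 →
        (Abv (g v) (g w) i i' e ↔
          hgt (l (w, i')) (r (w, i')) (pt ((v, i), e)).1 < (pt ((v, i), e)).2) := by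
      intro v w i i' e h1 h2
      rw [(hTs (pt ((v, i), e)) (c (w, i')) (w, i') rfl h1 h2).1]
      constructor
      · rintro ⟨j, hj, h3⟩
        have : j = c (w, i') := Fin.ext hj
        subst this
        exact h3
      · intro h3
        exact ⟨c (w, i'), rfl, h3⟩
    have hblw : ∀ (v w : Fin n) (i i' : Fin m) (e : Bool),
        (l (w, i')).1 ≤ (pt ((v, i), e)).1 → (pt ((v, i), e)).1 ≤ (r (w, i')).1 →
        (Blw (g v) (g w) i i' e ↔
          (pt ((v, i), e)).2 < hgt (l (w, i')) (r (w, i')) (pt ((v, i), e)).1) := by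
      intro v w i i' e h1 h2
      rw [(hTs (pt ((v, i), e)) (c (w, i')) (w, i') rfl h1 h2).2]
      constructor
      · rintro ⟨j, hj, h3⟩
        have : j = c (w, i') := Fin.ext hj
        subst this
        exact h3
      · intro h3
        exact ⟨c (w, i'), rfl, h3⟩
    have hx : ∀ (v w : Fin n) (i i' : Fin m) (e e' : Bool),
        rk X ((v, i), e) ≤ rk X ((w, i'), e') ↔ (pt ((v, i), e)).1 ≤ (pt ((w, i'), e')).1 := by
      intro v w i i' e e'
      exact rk_le_iff X _ _
    unfold Rule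
    apply exists_congr
    intro i
    apply exists_congr
    intro i'
    rw [meet_iff (hlr (v, i)) (hg (v, i)) (hlr (w, i')) (hg (w, i'))]
    have e1 : (g v (i, .inl 0) ≤ g w (i', .inl 1)) ↔ (l (v, i)).1 ≤ (r (w, i')).1 :=
      hx v w i i' false true
    have e2 : (g w (i', .inl 0) ≤ g v (i, .inl 1)) ↔ (l (w, i')).1 ≤ (r (v, i)).1 :=
      hx w v i' i false true
    have e3 : (g w (i', .inl 0) ≤ g v (i, .inl 0)) ↔ (l (w, i')).1 ≤ (l (v, i)).1 :=
      hx w v i' i false false
    have e4 : (g v (i, .inl 1) ≤ g w (i', .inl 1)) ↔ (r (v, i)).1 ≤ (r (w, i')).1 :=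
      hx v w i i' true true
    rw [e1, e2]
    apply and_congr_right
    rintro ⟨h1, h2⟩
    have hl1 := hgt_left (l (v, i)) (r (v, i))
    have hl2 := hgt_left (l (w, i')) (r (w, i'))
    have hr1 := hgt_right (hg (v, i))
    have hr2 := hgt_right (hg (w, i'))
    have A1 : (if g w (i', .inl 0) ≤ g v (i, .inl 0) then Abv (g v) (g w) i i' false
          else Blw (g w) (g v) i' i false) ↔
        hgt (l (w, i')) (r (w, i')) (max (l (v, i)).1 (l (w, i')).1) <
          hgt (l (v, i)) (r (v, i)) (max (l (v, i)).1 (l (w, i')).1) := by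
      by_cases h3 : (l (w, i')).1 ≤ (l (v, i)).1
      · rw [if_pos (e3.2 h3), max_eq_left h3, hl1]
        exact habv v w i i' false h3 h1
      · rw [if_neg (fun h => h3 (e3.1 h))]
        push Not at h3
        rw [max_eq_right h3.le, hl2]
        exact hblw w v i' i false h3.le h2
    have A2 : (if g v (i, .inl 1) ≤ g w (i', .inl 1) then Abv (g v) (g w) i i' true
          else Blw (g w) (g v) i' i true) ↔
        hgt (l (w, i')) (r (w, i')) (min (r (v, i)).1 (r (w, i')).1) <
          hgt (l (v, i)) (r (v, i)) (min (r (v, i)).1 (r (w, i')).1) := by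
      by_cases h3 : (r (v, i)).1 ≤ (r (w, i')).1
      · rw [if_pos (e4.2 h3), min_eq_left h3, hr1]
        exact habv v w i i' true h2 h3
      · rw [if_neg (fun h => h3 (e4.1 h))]
        push Not at h3
        rw [min_eq_right h3.le, hr2]
        exact hblw w v i' i true h1 h3.le
    have A3 : (if g w (i', .inl 0) ≤ g v (i, .inl 0) then Blw (g v) (g w) i i' false
          else Abv (g w) (g v) i' i false) ↔
        hgt (l (v, i)) (r (v, i)) (max (l (v, i)).1 (l (w, i')).1) <
          hgt (l (w, i')) (r (w, i')) (max (l (v, i)).1 (l (w, i')).1) := by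
      by_cases h3 : (l (w, i')).1 ≤ (l (v, i)).1
      · rw [if_pos (e3.2 h3), max_eq_left h3, hl1]
        exact hblw v w i i' false h3 h1
      · rw [if_neg (fun h => h3 (e3.1 h))]
        push Not at h3
        rw [max_eq_right h3.le, hl2]
        exact habv w v i' i false h3.le h2
    have A4 : (if g v (i, .inl 1) ≤ g w (i', .inl 1) then Blw (g v) (g w) i i' true
          else Abv (g w) (g v) i' i true) ↔
        hgt (l (v, i)) (r (v, i)) (min (r (v, i)).1 (r (w, i')).1) <
          hgt (l (w, i')) (r (w, i')) (min (r (v, i)).1 (r (w, i')).1) := by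
      by_cases h3 : (r (v, i)).1 ≤ (r (w, i')).1
      · rw [if_pos (e4.2 h3), min_eq_left h3, hr1]
        exact hblw v w i i' true h2 h3
      · rw [if_neg (fun h => h3 (e4.1 h))]
        push Not at h3
        rw [min_eq_right h3.le, hr2]
        exact habv w v i' i true h1 h3.le
    rw [A1, A2, A3, A4]

/-! ### from arbitrary pieces to pieces without vertical direction -/

/-- a horizontal shear -/
noncomputable def shear (ε : ℝ) : (ℝ × ℝ) →ₗ[ℝ] (ℝ × ℝ) where
  toFun a := (a.1 + ε * a.2, a.2)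
  map_add' a b := by
    apply Prod.ext
    · simp; ring
    · simp
  map_smul' t a := by
    apply Prod.ext
    · simp; ring
    · simp

theorem shear_inj (ε : ℝ) : Function.Injective (shear ε) := by
  intro a b h
  have h1 : (shear ε a).1 = (shear ε b).1 := congrArg Prod.fst h
  have h2' : (shear ε a).2 = (shear ε b).2 := congrArg Prod.snd h
  have h1 : a.1 + ε * a.2 = b.1 + ε * b.2 := h1
  have h2 : a.2 = b.2 := h2'
  apply Prod.ext
  · rw [h2] at h1
    linarith
  · exact h2

theorem exists_shear {ι : Type} [Finite ι] (p q : ι → ℝ × ℝ) :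
    ∃ ε : ℝ, ∀ x, (shear ε (p x)).1 = (shear ε (q x)).1 → p x = q x := by
  have hfin : (⋃ x : ι, {ε : ℝ | (shear ε (p x)).1 = (shear ε (q x)).1 ∧ p x ≠ q x}).Finite := by
    apply Set.finite_iUnion
    intro x
    apply Set.Subsingleton.finite
    rintro ε ⟨h1, h2⟩ ε' ⟨h3, _⟩
    have h1' : (p x).1 + ε * (p x).2 = (q x).1 + ε * (q x).2 := h1
    have h3' : (p x).1 + ε' * (p x).2 = (q x).1 + ε' * (q x).2 := h3
    have h4 : (ε - ε') * ((p x).2 - (q x).2) = 0 := by linarith
    rcases mul_eq_zero.1 h4 with h5 | h5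
    · linarith
    · exfalso
      apply h2
      apply Prod.ext
      · have : (p x).2 = (q x).2 := by linarith
        rw [this] at h1'
        linarith
      · linarith
  obtain ⟨ε, hε⟩ := hfin.infinite_compl.nonempty
  refine ⟨ε, fun x h => ?_⟩
  by_contra hne
  exact hε (Set.mem_iUnion.2 ⟨x, h, hne⟩)

theorem hgt_collinear {l r : ℝ × ℝ} {O D : ℝ × ℝ} {a b : ℝ} (hl : l = a • D + O)
    (hr : r = b • D + O) (hlt : l.1 < r.1) (t : ℝ) :
    hgt l r t = O.2 + (t - O.1) * (D.2 / D.1) := by
  subst hl hr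
  have h1 : a * D.1 < b * D.1 := by
    simpa using hlt
  have hD : D.1 ≠ 0 := by
    intro h
    rw [h] at h1
    simp at h1
  have hab : b - a ≠ 0 := by
    intro h
    have : a = b := by linarith
    rw [this] at h1
    exact lt_irrefl _ h1
  unfold hgt
  simp only [Prod.fst_add, Prod.smul_fst, smul_eq_mul, Prod.snd_add, Prod.smul_snd]
  have e1 : b * D.2 + O.2 - (a * D.2 + O.2) = (b - a) * D.2 := by ring
  have e2 : b * D.1 + O.1 - (a * D.1 + O.1) = (b - a) * D.1 := by ring
  rw [e1, e2, mul_div_mul_left _ _ hab]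
  field_simp
  ring

/-- **Main theorem.**  For all `k` and `m`, the intersection graphs of unions of `m` segments
whose pieces can be coloured with `k` colours so that no two pieces of the same colour cross
have an efficient local representation. -/
theorem result (k m : ℕ) :
    ∃ K : ℕ, ∃ f : ℕ → ℕ → Prop, (∀ x y, f x y → f y x) ∧
      ∀ (n : ℕ) (G : SimpleGraph (Fin n)) (p q : Fin n → Fin m → ℝ × ℝ)
        (c : Fin n → Fin m → Fin k),
        (∀ v w : Fin n, v ≠ w → (G.Adj v w ↔
          ((⋃ i, segment ℝ (p v i) (q v i)) ∩ (⋃ j, segment ℝ (p w j) (q w j))).Nonempty)) →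
        (∀ (v w : Fin n) (i j : Fin m), (v, i) ≠ (w, j) → c v i = c w j →
          Disjoint (openSegment ℝ (p v i) (q v i)) (openSegment ℝ (p w j) (q w j)) ∨
            Collinear ℝ ({p v i, q v i, p w j, q w j} : Set (ℝ × ℝ))) →
        ∃ ℓ : Fin n → ℕ, (∀ v, ℓ v < n ^ K) ∧
          ∀ v w : Fin n, v ≠ w → (G.Adj v w ↔ f (ℓ v) (ℓ w)) := by
  classical
  let e : Fld m k ≃ Fin (Fintype.card (Fld m k)) := Fintype.equivFin _
  refine ⟨(2 * m + k + 3) * 2 ^ Fintype.card (Fld m k),
    fun x y => ∃ g h : Fld m k → ℕ, x = code _ (g ∘ e.symm) ∧ y = code _ (h ∘ e.symm) ∧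
      (Rule g h ∨ Rule h g), ?_, ?_⟩
  · rintro x y ⟨g, h, hx, hy, hr⟩
    exact ⟨h, g, hy, hx, hr.symm⟩
  intro n G p q c hG hcol
  rcases Nat.lt_or_ge n 2 with hn | hn
  · have hsub : ∀ v w : Fin n, v = w := by
      intro v w
      apply Fin.ext
      have := v.2
      have := w.2
      omega
    refine ⟨fun _ => 0, fun v => ?_, fun v w hvw => absurd (hsub v w) hvw⟩
    have := v.2
    have hn1 : n = 1 := by omega
    subst hn1
    simp
  let P : Fin n × Fin m → ℝ × ℝ := fun x => p x.1 x.2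
  let Q : Fin n × Fin m → ℝ × ℝ := fun x => q x.1 x.2
  obtain ⟨ε, hε⟩ := exists_shear P Q
  let l : Fin n × Fin m → ℝ × ℝ := fun x =>
    if (shear ε (P x)).1 ≤ (shear ε (Q x)).1 then shear ε (P x) else shear ε (Q x)
  let r : Fin n × Fin m → ℝ × ℝ := fun x =>
    if (shear ε (P x)).1 ≤ (shear ε (Q x)).1 then shear ε (Q x) else shear ε (P x)
  have hlr : ∀ x, (l x).1 ≤ (r x).1 := by
    intro x
    by_cases h : (shear ε (P x)).1 ≤ (shear ε (Q x)).1
    · simp only [l, r, if_pos h]
      exact h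
    · simp only [l, r, if_neg h]
      exact (not_le.1 h).le
  have hg : ∀ x, (l x).1 = (r x).1 → l x = r x := by
    intro x hx
    by_cases h : (shear ε (P x)).1 ≤ (shear ε (Q x)).1
    · simp only [l, r, if_pos h] at hx ⊢
      rw [hε x hx]
    · simp only [l, r, if_neg h] at hx ⊢
      rw [hε x hx.symm]
  have hseg : ∀ x, segment ℝ (l x) (r x) = shear ε '' segment ℝ (P x) (Q x) := by
    intro x
    have him : shear ε '' segment ℝ (P x) (Q x) = segment ℝ (shear ε (P x)) (shear ε (Q x)) :=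
      image_segment ℝ (shear ε).toAffineMap (P x) (Q x)
    rw [him]
    by_cases h : (shear ε (P x)).1 ≤ (shear ε (Q x)).1
    · simp only [l, r, if_pos h]
    · simp only [l, r, if_neg h]
      exact segment_symm ℝ _ _
  have hoseg : ∀ x, openSegment ℝ (l x) (r x) = shear ε '' openSegment ℝ (P x) (Q x) := by
    intro x
    have him : shear ε '' openSegment ℝ (P x) (Q x) =
        openSegment ℝ (shear ε (P x)) (shear ε (Q x)) :=
      image_openSegment ℝ (shear ε).toAffineMap (P x) (Q x)
    rw [him]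
    by_cases h : (shear ε (P x)).1 ≤ (shear ε (Q x)).1
    · simp only [l, r, if_pos h]
    · simp only [l, r, if_neg h]
      exact openSegment_symm ℝ _ _
  have hnc : NC l r (fun x => c x.1 x.2) := by
    intro x y hxy t t' h1 h2 h3 h4 h5
    by_contra hcon
    push Not at hcon
    have htt : t ≠ t' := by
      rintro rfl
      linarith
    have hne : x ≠ y := by
      rintro rfl
      exact lt_irrefl _ h5
    rcases hcol x.1 y.1 x.2 y.2 hne hxy with hd | hc
    · obtain ⟨A, B, hAB⟩ := hgt_affine (l x) (r x)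
      obtain ⟨A', B', hAB'⟩ := hgt_affine (l y) (r y)
      have hz : ∃ t0, min t t' ≤ t0 ∧ t0 ≤ max t t' ∧ (A - A') + (B - B') * t0 = 0 := by
        rw [affine_zero (min_le_max)]
        rw [hAB, hAB'] at h5 hcon
        rcases le_total t t' with h | h
        · rw [min_eq_left h, max_eq_right h]
          constructor
          · rintro ⟨h6, h7⟩
            linarith
          · rintro ⟨h6, h7⟩
            linarith
        · rw [min_eq_right h, max_eq_left h]
          constructor
          · rintro ⟨h6, h7⟩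
            linarith
          · rintro ⟨h6, h7⟩
            linarith
      obtain ⟨t0, h6, h7, h8⟩ := hz
      have heq : hgt (l x) (r x) t0 = hgt (l y) (r y) t0 := by
        rw [hAB, hAB']
        linarith
      have hne1 : t0 ≠ t := by
        rintro rfl
        linarith
      have hne2 : t0 ≠ t' := by
        rintro rfl
        linarith
      have h9 : min t t' < t0 := by
        rcases le_total t t' with h | h
        · rw [min_eq_left h] at h6 ⊢
          exact lt_of_le_of_ne h6 hne1.symm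
        · rw [min_eq_right h] at h6 ⊢
          exact lt_of_le_of_ne h6 hne2.symm
      have h10 : t0 < max t t' := by
        rcases le_total t t' with h | h
        · rw [max_eq_right h] at h7 ⊢
          exact lt_of_le_of_ne h7 hne2
        · rw [max_eq_left h] at h7 ⊢
          exact lt_of_le_of_ne h7 hne1
      have hx1 : ((t0, hgt (l x) (r x) t0) : ℝ × ℝ) ∈ openSegment ℝ (l x) (r x) :=
        mem_oseg (lt_of_le_of_lt (le_min h1.1 h3.1) h9) (lt_of_lt_of_le h10 (max_le h1.2 h3.2)) rfl
      have hy1 : ((t0, hgt (l x) (r x) t0) : ℝ × ℝ) ∈ openSegment ℝ (l y) (r y) :=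
        mem_oseg (lt_of_le_of_lt (le_min h2.1 h4.1) h9) (lt_of_lt_of_le h10 (max_le h2.2 h4.2)) heq
      rw [hoseg] at hx1 hy1
      obtain ⟨z, hz1, hz2⟩ := hx1
      obtain ⟨z', hz1', hz2'⟩ := hy1
      have hzz : z = z' := shear_inj ε (hz2.trans hz2'.symm)
      subst hzz
      exact Set.disjoint_left.1 hd hz1 hz1'
    · have hmem : P x ∈ ({p x.1 x.2, q x.1 x.2, p y.1 y.2, q y.1 y.2} : Set (ℝ × ℝ)) := by
        simp [P]
      rw [collinear_iff_of_mem hmem] at hc
      obtain ⟨d, hd⟩ := hc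
      have hform : ∀ z ∈ ({p x.1 x.2, q x.1 x.2, p y.1 y.2, q y.1 y.2} : Set (ℝ × ℝ)),
          ∃ a : ℝ, shear ε z = a • shear ε d + shear ε (P x) := by
        intro z hz
        obtain ⟨a, ha⟩ := hd z hz
        refine ⟨a, ?_⟩
        rw [ha, vadd_eq_add, map_add, map_smul]
      have hlx : ∃ a : ℝ, l x = a • shear ε d + shear ε (P x) := by
        by_cases h : (shear ε (P x)).1 ≤ (shear ε (Q x)).1
        · simp only [l, if_pos h]
          exact hform _ (by simp [P])
        · simp only [l, if_neg h]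
          exact hform _ (by simp [Q])
      have hrx : ∃ a : ℝ, r x = a • shear ε d + shear ε (P x) := by
        by_cases h : (shear ε (P x)).1 ≤ (shear ε (Q x)).1
        · simp only [r, if_pos h]
          exact hform _ (by simp [Q])
        · simp only [r, if_neg h]
          exact hform _ (by simp [P])
      have hly : ∃ a : ℝ, l y = a • shear ε d + shear ε (P x) := by
        by_cases h : (shear ε (P y)).1 ≤ (shear ε (Q y)).1
        · simp only [l, if_pos h]
          exact hform _ (by simp [P])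
        · simp only [l, if_neg h]
          exact hform _ (by simp [Q])
      have hry : ∃ a : ℝ, r y = a • shear ε d + shear ε (P x) := by
        by_cases h : (shear ε (P y)).1 ≤ (shear ε (Q y)).1
        · simp only [r, if_pos h]
          exact hform _ (by simp [Q])
        · simp only [r, if_neg h]
          exact hform _ (by simp [P])
      obtain ⟨a1, ha1⟩ := hlx
      obtain ⟨a2, ha2⟩ := hrx
      obtain ⟨a3, ha3⟩ := hly
      obtain ⟨a4, ha4⟩ := hry
      have hltx : (l x).1 < (r x).1 := by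
        rcases lt_or_gt_of_ne htt with h | h
        · linarith [h1.1, h3.2]
        · linarith [h3.1, h1.2]
      have hlty : (l y).1 < (r y).1 := by
        rcases lt_or_gt_of_ne htt with h | h
        · linarith [h2.1, h4.2]
        · linarith [h4.1, h2.2]
      rw [hgt_collinear ha1 ha2 hltx, hgt_collinear ha3 ha4 hlty] at h5
      exact lt_irrefl _ h5
  obtain ⟨g, hgb, hgr⟩ := generic_labels n m k l r (fun x => c x.1 x.2) hlr hg hnc
  have hB : 2 * (n * m) + k + 2 ≤ n ^ (2 * m + k + 3) := by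
    have h1 : 2 * m + k + 2 < 2 ^ (2 * m + k + 2) := Nat.lt_two_pow_self
    have h2 : 2 ^ (2 * m + k + 2) ≤ n ^ (2 * m + k + 2) := Nat.pow_le_pow_left hn _
    calc 2 * (n * m) + k + 2 ≤ n * (2 * m + k + 2) := by nlinarith
      _ ≤ n * n ^ (2 * m + k + 2) := Nat.mul_le_mul_left _ (by omega)
      _ = n ^ (2 * m + k + 3) := by ring
  refine ⟨fun v => code _ (g v ∘ e.symm), ?_, ?_⟩
  · intro v
    calc code _ (g v ∘ e.symm) < (2 * (n * m) + k + 2) ^ (2 ^ Fintype.card (Fld m k)) :=
          code_lt _ _ _ (by omega) (fun i => hgb v _)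
      _ ≤ (n ^ (2 * m + k + 3)) ^ (2 ^ Fintype.card (Fld m k)) := Nat.pow_le_pow_left hB _
      _ = n ^ ((2 * m + k + 3) * 2 ^ Fintype.card (Fld m k)) := by rw [← pow_mul]
  · intro v w hvw
    have hmeet : ∀ v w : Fin n, (∃ i i', (segment ℝ (l (v, i)) (r (v, i)) ∩
        segment ℝ (l (w, i')) (r (w, i'))).Nonempty) ↔
        ((⋃ i, segment ℝ (p v i) (q v i)) ∩ (⋃ j, segment ℝ (p w j) (q w j))).Nonempty := by
      intro v w
      constructor
      · rintro ⟨i, i', h⟩
        rw [hseg, hseg, ← Set.image_inter (shear_inj ε), Set.image_nonempty] at h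
        obtain ⟨z, hz1, hz2⟩ := h
        exact ⟨z, Set.mem_iUnion.2 ⟨i, hz1⟩, Set.mem_iUnion.2 ⟨i', hz2⟩⟩
      · rintro ⟨z, hz1, hz2⟩
        obtain ⟨i, hi⟩ := Set.mem_iUnion.1 hz1
        obtain ⟨i', hi'⟩ := Set.mem_iUnion.1 hz2
        refine ⟨i, i', ?_⟩
        rw [hseg, hseg, ← Set.image_inter (shear_inj ε), Set.image_nonempty]
        exact ⟨z, hi, hi'⟩
    rw [hG v w hvw]
    constructor
    · intro h
      exact ⟨g v, g w, rfl, rfl, Or.inl ((hgr v w).2 ((hmeet v w).2 h))⟩
    · rintro ⟨g', h', h1, h2, h3⟩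
      have h1' := code_inj _ _ _ h1
      have h2' := code_inj _ _ _ h2
      have e1 : g' = g v := by
        funext t
        have := congrFun h1' (e t)
        simpa using this.symm
      have e2 : h' = g w := by
        funext t
        have := congrFun h2' (e t)
        simpa using this.symm
      subst e1 e2
      rcases h3 with h3 | h3
      · exact (hmeet v w).1 ((hgr v w).1 h3)
      · have := (hmeet w v).1 ((hgr w v).1 h3)
        rwa [Set.inter_comm] at this

end Pool.Agent.Results.MP_957450_co.NoncrossingPieces
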